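import Pool.Agent.H7.Fldim

set_option autoImplicit false

namespace Pool.Agent.Results.MP_c6110c_co.LogLower

open Pool.Agent.H7.Fldim

/-- Every fractional local `t`-realiser of the `m`-chain has local weight at least `log_t m`
at some point. -/
theorem result (t m : ℕ) (ht : 2 ≤ t) (hm : 1 ≤ m) (w : PF m t → ℝ) (hw : IsRealiser w) :
    ∃ x : Fin m, Real.logb t m ≤ localWeight w x :=
  lower ht hm w hw

end Pool.Agent.Results.MP_c6110c_co.LogLower
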